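import Pool.Agent.H828R3.Exc.Law

/-!
The passage times of the `3x+1` map on the odd integers: all odd `m ≤ X` but `X ^ (1 - δ)` pass below `m ^ t` after
`(1 - t) log m / log (4 / 3)` steps, up to `ε log m`, for all `θ ≤ t ≤ 1` simultaneously.

The first lemmas are copied from `Pool.Agent.TH930.LT.OddMap`.
-/

set_option autoImplicit false

namespace Pool.Agent.Zk38.Ht

open Finset Pool.Agent.Helper894.Collatz Pool.Agent.H377R2

/-- `C(m) = (3m+1)/2^e(m)`, `2^e(m)` the largest power of `2` dividing `3m+1` -/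
def Co (m : ℕ) : ℕ := (3 * m + 1) / 2 ^ padicValNat 2 (3 * m + 1)

lemma T_two_mul (z : ℕ) : T (2 * z) = z := by
  unfold T
  rw [if_pos (by omega)]
  omega

/-- for odd `m`: `T m = 2^f C(m)` and `C(m)` is odd -/
lemma T_odd_form {m : ℕ} (hm : m % 2 = 1) : ∃ f, T m = 2 ^ f * Co m ∧ Co m % 2 = 1 := by
  have hne : 3 * m + 1 ≠ 0 := by omega
  have h2 : 2 ∣ 3 * m + 1 := by omega
  have hv : 1 ≤ padicValNat 2 (3 * m + 1) := one_le_padicValNat_of_dvd hne h2
  have hdvd : 2 ^ padicValNat 2 (3 * m + 1) ∣ 3 * m + 1 := pow_padicValNat_dvd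
  have hC : 2 ^ padicValNat 2 (3 * m + 1) * Co m = 3 * m + 1 := by
    unfold Co
    exact Nat.mul_div_cancel' hdvd
  obtain ⟨f, hf⟩ : ∃ f, padicValNat 2 (3 * m + 1) = f + 1 := ⟨_, (Nat.sub_add_cancel hv).symm⟩
  refine ⟨f, ?_, ?_⟩
  · have h3 := T_odd hm
    rw [hf, pow_succ] at hC
    have h4 : 2 * T m = 2 * (2 ^ f * Co m) := by rw [h3, ← hC]; ring
    exact Nat.eq_of_mul_eq_mul_left (by norm_num) h4
  · rcases Nat.mod_two_eq_zero_or_one (Co m) with h | h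
    · exfalso
      obtain ⟨c, hc⟩ : 2 ∣ Co m := Nat.dvd_of_mod_eq_zero h
      have h5 : 2 ^ (padicValNat 2 (3 * m + 1) + 1) ∣ 3 * m + 1 := by
        refine ⟨c, ?_⟩
        rw [hc] at hC
        rw [pow_succ, mul_assoc]
        exact hC.symm
      exact pow_succ_padicValNat_not_dvd hne h5
    · exact h

/-- the odd part of `T^j m` is the iterate of `C` -/
theorem odd_form {m : ℕ} (hm : m % 2 = 1) (j : ℕ) :
    (∃ f, T^[j] m = 2 ^ f * Co^[od j m] m) ∧ Co^[od j m] m % 2 = 1 := by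
  induction j with
  | zero => exact ⟨⟨0, by simp [od]⟩, by simpa [od] using hm⟩
  | succ j ih =>
    obtain ⟨⟨f, hf⟩, hodd⟩ := ih
    rw [Function.iterate_succ_apply', od_succ]
    rcases Nat.eq_zero_or_pos f with h0 | h0
    · subst h0
      rw [pow_zero, one_mul] at hf
      rw [hf, hodd, Function.iterate_succ_apply']
      obtain ⟨g, hg1, hg2⟩ := T_odd_form hodd
      exact ⟨⟨g, hg1⟩, hg2⟩
    · obtain ⟨g, rfl⟩ : ∃ g, f = g + 1 := ⟨f - 1, by omega⟩
      have he : T^[j] m = 2 * (2 ^ g * Co^[od j m] m) := by rw [hf, pow_succ]; ring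
      have hev : (T^[j] m) % 2 = 0 := by rw [he]; omega
      rw [hev, add_zero, he, T_two_mul]
      exact ⟨⟨g, rfl⟩, hodd⟩

lemma Co_le {m : ℕ} (hm : m % 2 = 1) (j : ℕ) : Co^[od j m] m ≤ T^[j] m := by
  obtain ⟨⟨f, hf⟩, -⟩ := odd_form hm j
  rw [hf]
  exact Nat.le_mul_of_pos_left _ (by positivity)

/-- the iterates of `C` are visited -/
theorem visited {m : ℕ} (hm : m % 2 = 1) : ∀ j i : ℕ, i < od j m → ∃ t < j, T^[t] m = Co^[i] m := by
  intro j
  induction j with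
  | zero => intro i hi; simp [od] at hi
  | succ j ih =>
    intro i hi
    rw [od_succ] at hi
    rcases Nat.lt_or_ge i (od j m) with h1 | h1
    · obtain ⟨t, ht, h2⟩ := ih i h1
      exact ⟨t, by omega, h2⟩
    · have h2 : (T^[j] m) % 2 = 1 := by omega
      have h3 : i = od j m := by omega
      obtain ⟨⟨f, hf⟩, hodd⟩ := odd_form hm j
      rcases Nat.eq_zero_or_pos f with h0 | h0
      · subst h0
        rw [pow_zero, one_mul] at hf
        exact ⟨j, by omega, by rw [h3]; exact hf⟩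
      · exfalso
        obtain ⟨g, rfl⟩ : ∃ g, f = g + 1 := ⟨f - 1, by omega⟩
        have he : T^[j] m = 2 * (2 ^ g * Co^[od j m] m) := by rw [hf, pow_succ]; ring
        omega

/-- the number of odd steps until the passage below `y`, from the time -/
theorem od_at_passage {m j : ℕ} {y : ℝ} (hm : 1 ≤ m) (h1 : ((T^[j] m : ℕ) : ℝ) ≤ y)
    (h2 : ∀ i < j, y < (T^[i] m : ℕ)) (hj : (j : ℝ) ≤ (T^[j] m : ℕ)) :
    |(od j m : ℝ) * Real.log 3 - (j * Real.log 2 + Real.log (T^[j] m : ℕ) - Real.log m)| ≤ Real.log 2 := by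
  have hm0 : (0 : ℝ) < m := by exact_mod_cast hm
  have hv0 : 0 < T^[j] m := iter_pos hm j
  have hvR : (0 : ℝ) < (T^[j] m : ℕ) := by exact_mod_cast hv0
  have h3 := iter_eq j m
  have h4 : 2 * er j m ≤ j * 2 ^ j := er_le hm fun i hi => by
    have := h2 i hi
    have h5 : ((T^[j] m : ℕ) : ℝ) ≤ (T^[i] m : ℕ) := h1.trans this.le
    exact_mod_cast h5
  have h5 : (2 : ℝ) ^ j * (T^[j] m : ℕ) = 3 ^ od j m * m + er j m := by exact_mod_cast h3
  have h6 : 2 * (er j m : ℝ) ≤ j * 2 ^ j := by exact_mod_cast h4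
  have h7 : 2 * (er j m : ℝ) ≤ 2 ^ j * (T^[j] m : ℕ) := by
    have h8 : (j : ℝ) * 2 ^ j ≤ (T^[j] m : ℕ) * 2 ^ j := mul_le_mul_of_nonneg_right hj (by positivity)
    linarith
  have h8 : (3 : ℝ) ^ od j m * m ≤ 2 ^ j * (T^[j] m : ℕ) := by
    have : (0 : ℝ) ≤ er j m := Nat.cast_nonneg _
    linarith
  have h9 : (2 : ℝ) ^ j * (T^[j] m : ℕ) ≤ 2 * (3 ^ od j m * m) := by linarith
  have e1 : Real.log ((3 : ℝ) ^ od j m * m) = od j m * Real.log 3 + Real.log m := by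
    rw [Real.log_mul (by positivity) hm0.ne', Real.log_pow]
  have e2 : Real.log ((2 : ℝ) ^ j * (T^[j] m : ℕ)) = j * Real.log 2 + Real.log (T^[j] m : ℕ) := by
    rw [Real.log_mul (by positivity) hvR.ne', Real.log_pow]
  have h10 := Real.log_le_log (by positivity) h8
  have h11 := Real.log_le_log (by positivity) h9
  rw [e1, e2] at h10
  have e3 : Real.log (2 * ((3 : ℝ) ^ od j m * m)) = Real.log 2 + (od j m * Real.log 3 + Real.log m) := by
    rw [Real.log_mul (by norm_num) (by positivity), e1]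
  rw [e2, e3] at h11
  have hl2 : 0 < Real.log 2 := Real.log_pos (by norm_num)
  rw [abs_le]
  constructor <;> linarith

/-- For all `θ ≤ t ≤ 1` the first term `C^k(m) ≤ m ^ t` of the trajectory has an index `k` which differs from
`(1 - t) (2 / log (16 / 9)) log m` by at most `ε log m`. -/
def OnCourse (ε θ : ℝ) (m : ℕ) : Prop :=
  ∀ t : ℝ, θ ≤ t → t ≤ 1 → ∃ k : ℕ, ((Co^[k] m : ℕ) : ℝ) ≤ (m : ℝ) ^ t ∧ (∀ i < k, (m : ℝ) ^ t < (Co^[i] m : ℕ)) ∧
    |(k : ℝ) - (1 - t) * (2 / Real.log (16 / 9)) * Real.log m| ≤ ε * Real.log m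

lemma log43 : Real.log (4 / 3) = 2 * Real.log 2 - Real.log 3 := by
  rw [Real.log_div (by norm_num) (by norm_num), show (4 : ℝ) = 2 ^ 2 by norm_num, Real.log_pow]
  norm_num

lemma two_div : 2 / Real.log (16 / 9) = 1 / Real.log (4 / 3) := by
  have h43 : 0 < Real.log (4 / 3) := Real.log_pos (by norm_num)
  rw [show (16 / 9 : ℝ) = (4 / 3) ^ 2 by norm_num, Real.log_pow]
  push_cast
  field_simp

lemma half_le (z : ℕ) : z ≤ 2 * T z := by
  unfold T
  split_ifs <;> omega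

/-- a regular trajectory is on course -/
theorem onCourse_of {ε θ y V : ℝ} (hε : 0 < ε) (hε1 : ε ≤ 1) {n : ℕ} (hn : n % 2 = 1)
    (hy : y ≤ (n : ℝ) ^ θ) (hlog : 10 / ε ≤ Real.log n) (hbig : 60 * Real.log n ≤ (n : ℝ) ^ θ)
    (h : Pool.Agent.H828R3.Exc.Pr (ε / 10) y V n) : OnCourse ε θ n := by
  obtain ⟨m₀, h1, h2⟩ := h
  have hμ : Pool.Agent.H319R2.Lln.mu = Real.log (4 / 3) / 2 := rfl
  rw [hμ] at h2
  have l2a := Real.log_two_gt_d9
  have l2b := Real.log_two_lt_d9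
  have l3a : (1.0986 : ℝ) < Real.log 3 := by
    have := Real.log_three_gt_d9
    norm_num at this ⊢
    linarith
  have l3b : Real.log 3 < (1.0987 : ℝ) := by
    have := Real.log_three_lt_d9
    norm_num at this ⊢
    linarith
  have e43 := log43
  set a := Real.log (4 / 3) with ha
  have ha0 : (0.2875 : ℝ) < a := by norm_num at l2a ⊢; linarith
  have ha1 : a < (0.2878 : ℝ) := by norm_num at l2b ⊢; linarith
  set L := Real.log n with hL
  have hn1 : 1 ≤ n := by omega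
  have hL10 : 10 ≤ L := by
    have : 10 ≤ 10 / ε := by
      rw [le_div_iff₀ hε]
      linarith
    linarith
  have hεL : 10 ≤ ε * L := by
    rw [div_le_iff₀ hε] at hlog
    linarith
  have hn0 : (0 : ℝ) < n := by exact_mod_cast hn1
  have hn1' : (1 : ℝ) < n := by
    by_contra hcon
    rw [not_lt] at hcon
    have := Real.log_nonpos hn0.le hcon
    linarith
  intro t ht ht1
  rcases ht1.eq_or_lt with h1' | ht1
  · refine ⟨0, ?_, fun i hi => absurd hi (Nat.not_lt_zero i), ?_⟩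
    · rw [h1', Real.rpow_one, Function.iterate_zero, id]
    · rw [h1']
      simp only [Nat.cast_zero, sub_self, zero_mul, abs_zero]
      positivity
  have hnt : (n : ℝ) ^ t < n := by
    calc (n : ℝ) ^ t < (n : ℝ) ^ (1 : ℝ) := Real.rpow_lt_rpow_of_exponent_lt hn1' ht1
      _ = n := Real.rpow_one _
  have hntθ : (n : ℝ) ^ θ ≤ (n : ℝ) ^ t := Real.rpow_le_rpow_of_exponent_le hn1'.le ht
  classical
  have hex : ∃ j : ℕ, ((T^[j] n : ℕ) : ℝ) ≤ (n : ℝ) ^ t := ⟨m₀, h1.trans (hy.trans hntθ)⟩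
  obtain ⟨J, hJ⟩ : ∃ J, J = Nat.find hex := ⟨_, rfl⟩
  have hJ1 : ((T^[J] n : ℕ) : ℝ) ≤ (n : ℝ) ^ t := by rw [hJ]; exact Nat.find_spec hex
  have hJ2 : ∀ i < J, (n : ℝ) ^ t < (T^[i] n : ℕ) := fun i hi => by
    rw [hJ] at hi
    exact not_le.1 (Nat.find_min hex hi)
  have hJm : J ≤ m₀ := by rw [hJ]; exact Nat.find_min' hex (h1.trans (hy.trans hntθ))
  have hJ0 : J ≠ 0 := by
    intro h0
    rw [h0, Function.iterate_zero, id] at hJ1
    linarith
  have hTpos : 0 < T^[J] n := iter_pos hn1 J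
  have hTR : (0 : ℝ) < (T^[J] n : ℕ) := by exact_mod_cast hTpos
  have hlow : (n : ℝ) ^ t < 2 * (T^[J] n : ℕ) := by
    obtain ⟨i, rfl⟩ := Nat.exists_eq_succ_of_ne_zero hJ0
    have h3 := hJ2 i (Nat.lt_succ_self i)
    have h4 := half_le (T^[i] n)
    rw [Function.iterate_succ_apply']
    have h5 : ((T^[i] n : ℕ) : ℝ) ≤ 2 * (T (T^[i] n) : ℕ) := by exact_mod_cast h4
    linarith
  have hnt0 : (0 : ℝ) < (n : ℝ) ^ t := Real.rpow_pos_of_pos hn0 _
  have hup' : Real.log (T^[J] n : ℕ) ≤ t * L := by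
    have := Real.log_le_log hTR hJ1
    rwa [Real.log_rpow hn0] at this
  have hlow' : t * L ≤ Real.log 2 + Real.log (T^[J] n : ℕ) := by
    have := Real.log_le_log hnt0 hlow.le
    rwa [Real.log_rpow hn0, Real.log_mul (by norm_num) hTR.ne'] at this
  have h3 := (h2 J hJm).1
  rw [abs_le] at h3
  obtain ⟨h3a, h3b⟩ := h3
  have hT0 : 0 ≤ Real.log (T^[J] n : ℕ) := Real.log_natCast_nonneg _
  have hJR : (0 : ℝ) ≤ J := Nat.cast_nonneg J
  -- the number of steps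
  have hJL : (J : ℝ) ≤ 30 * L := by
    have h4 : a / 2 * J ≤ ε / 10 * L + L := by linarith
    have h5 : ε / 10 * L ≤ 1 / 10 * L := mul_le_mul_of_nonneg_right (by linarith) (by linarith)
    nlinarith
  have hJT : (J : ℝ) ≤ (T^[J] n : ℕ) := by linarith
  have h4 := od_at_passage hn1 hJ1 hJ2 hJT
  refine ⟨od J n, ?_, ?_, ?_⟩
  · exact le_trans (by exact_mod_cast Co_le hn J) hJ1
  · intro i hi
    obtain ⟨s, hs, h5⟩ := visited hn J i hi
    have h6 := hJ2 s hs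
    rwa [h5] at h6
  · rw [two_div, ← ha]
    rw [abs_le] at h4 ⊢
    obtain ⟨h4a, h4b⟩ := h4
    set k : ℝ := (od J n : ℝ) with hk
    set τ : ℝ := Real.log (T^[J] n : ℕ) with hτ
    have hl3 : Real.log 3 = 2 * Real.log 2 - a := by linarith
    set l2 := Real.log 2 with hl2
    -- multiply by `a log 3`
    have hl2a : (0.69 : ℝ) < l2 := by norm_num at l2a ⊢; linarith
    have hl2b : l2 < (0.7 : ℝ) := by norm_num at l2b ⊢; linarith
    have hL0 : 0 < L := by linarith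
    have key1 : a * (k * Real.log 3) ≤ 2 * l2 * ((1 - t) * L + ε / 10 * L + l2) - a * ((1 - t) * L) + a * l2 := by
      have h5 : k * Real.log 3 ≤ J * l2 + τ - L + l2 := by linarith
      have h6 : a * (k * Real.log 3) ≤ a * (J * l2 + τ - L + l2) := mul_le_mul_of_nonneg_left h5 (by linarith)
      have h7 : a * J ≤ 2 * ((1 - t) * L + ε / 10 * L + l2) := by linarith
      have h8 : a * (J * l2) ≤ 2 * ((1 - t) * L + ε / 10 * L + l2) * l2 := by
        have := mul_le_mul_of_nonneg_right h7 (show 0 ≤ l2 by linarith)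
        linarith
      have h9 : a * (τ - L) ≤ a * (-((1 - t) * L)) := mul_le_mul_of_nonneg_left (by linarith) (by linarith)
      have e1 : a * (J * l2 + τ - L + l2) = a * (J * l2) + a * (τ - L) + a * l2 := by ring
      rw [e1] at h6
      linarith
    have key2 : 2 * l2 * ((1 - t) * L - ε / 10 * L) - a * ((1 - t) * L) - 2 * a * l2 ≤ a * (k * Real.log 3) := by
      have h5 : J * l2 + τ - L - l2 ≤ k * Real.log 3 := by linarith
      have h6 : a * (J * l2 + τ - L - l2) ≤ a * (k * Real.log 3) := mul_le_mul_of_nonneg_left h5 (by linarith)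
      have h7 : 2 * ((1 - t) * L - ε / 10 * L) ≤ a * J := by linarith
      have h8 : 2 * ((1 - t) * L - ε / 10 * L) * l2 ≤ a * (J * l2) := by
        have := mul_le_mul_of_nonneg_right h7 (show 0 ≤ l2 by linarith)
        linarith
      have h9 : a * (-((1 - t) * L) - l2) ≤ a * (τ - L) := mul_le_mul_of_nonneg_left (by linarith) (by linarith)
      have e1 : a * (J * l2 + τ - L - l2) = a * (J * l2) + a * (τ - L) - a * l2 := by ring
      rw [e1] at h6
      linarith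
    have e2 : 2 * l2 * ((1 - t) * L) - a * ((1 - t) * L) = (1 - t) * L * Real.log 3 := by rw [hl3]; ring
    have hal3 : 0 < a * Real.log 3 := mul_pos (by linarith) (by linarith)
    have hal3' : (0.315 : ℝ) ≤ a * Real.log 3 :=
      calc (0.315 : ℝ) ≤ 0.2875 * 1.0986 := by norm_num
        _ ≤ a * Real.log 3 := mul_le_mul ha0.le l3a.le (by norm_num) (by linarith)
    have hl2sq : l2 * l2 ≤ 0.49 :=
      calc l2 * l2 ≤ 0.7 * 0.7 := mul_le_mul hl2b.le hl2b.le (by linarith) (by norm_num)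
        _ = 0.49 := by norm_num
    have hal2 : a * l2 ≤ 0.21 :=
      calc a * l2 ≤ 0.2878 * 0.7 := mul_le_mul ha1.le hl2b.le (by linarith) (by norm_num)
        _ ≤ 0.21 := by norm_num
    have hε2 : l2 * (ε * L) ≤ 0.7 * (ε * L) := mul_le_mul_of_nonneg_right hl2b.le (by positivity)
    have hεk : 0.315 * (ε * L) ≤ a * Real.log 3 * (ε * L) := mul_le_mul_of_nonneg_right hal3' (by positivity)
    have ha0' : a ≠ 0 := by linarith
    have eq3 : (1 - t) * (1 / a) * L * (a * Real.log 3) = (1 - t) * L * Real.log 3 := by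
      field_simp
    constructor
    · have h5 : (-(ε * L) + (1 - t) * (1 / a) * L) * (a * Real.log 3) ≤ k * (a * Real.log 3) := by
        have e3 : (-(ε * L) + (1 - t) * (1 / a) * L) * (a * Real.log 3) =
            -(a * Real.log 3 * (ε * L)) + (1 - t) * L * Real.log 3 := by
          rw [add_mul, eq3]
          ring
        rw [e3]
        have e4 : k * (a * Real.log 3) = a * (k * Real.log 3) := by ring
        rw [e4]
        refine le_trans ?_ key2
        have e5 : 2 * l2 * ((1 - t) * L - ε / 10 * L) - a * ((1 - t) * L) - 2 * a * l2 =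
            (2 * l2 * ((1 - t) * L) - a * ((1 - t) * L)) - (l2 * (ε * L) / 5 + 2 * (a * l2)) := by ring
        rw [e5, e2]
        linarith
      have h6 := le_of_mul_le_mul_right h5 hal3
      linarith
    · have h5 : k * (a * Real.log 3) ≤ (ε * L + (1 - t) * (1 / a) * L) * (a * Real.log 3) := by
        have e3 : (ε * L + (1 - t) * (1 / a) * L) * (a * Real.log 3) =
            a * Real.log 3 * (ε * L) + (1 - t) * L * Real.log 3 := by
          rw [add_mul, eq3]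
          ring
        rw [e3]
        have e4 : k * (a * Real.log 3) = a * (k * Real.log 3) := by ring
        rw [e4]
        refine key1.trans ?_
        have e5 : 2 * l2 * ((1 - t) * L + ε / 10 * L + l2) - a * ((1 - t) * L) + a * l2 =
            (2 * l2 * ((1 - t) * L) - a * ((1 - t) * L)) + (l2 * (ε * L) / 5 + 2 * (l2 * l2) + a * l2) := by ring
        rw [e5, e2]
        linarith
      have h6 := le_of_mul_le_mul_right h5 hal3
      linarith

/-- the odd integers which are not on course -/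
def Off (ε θ : ℝ) : Set ℕ := {m : ℕ | m % 2 = 1 ∧ ¬ OnCourse ε θ m}

lemma OnCourse.mono {ε ε' θ : ℝ} {m : ℕ} (h : OnCourse ε θ m) (hε : ε ≤ ε') : OnCourse ε' θ m := by
  intro t ht ht1
  obtain ⟨k, h1, h2, h3⟩ := h t ht ht1
  exact ⟨k, h1, h2, h3.trans (mul_le_mul_of_nonneg_right hε (Real.log_natCast_nonneg _))⟩

theorem count_off {ε θ : ℝ} (hε : 0 < ε) (hθ : 0 < θ) (hθ1 : θ < 1) : ∃ s : ℝ, 0 < s ∧ s < 1 ∧
    ∀ η : ℝ, 0 < η → ∃ K : ℝ, ∀ X : ℝ, 1 ≤ X → {m : ℕ | m ∈ Off ε θ ∧ (m : ℝ) ≤ X}.Finite ∧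
      ({m : ℕ | m ∈ Off ε θ ∧ (m : ℝ) ≤ X}.ncard : ℝ) ≤ K * X ^ (s + η) := by
  classical
  obtain ⟨ε₁, hε₁⟩ : ∃ ε₁ : ℝ, ε₁ = min ε 1 := ⟨_, rfl⟩
  have hε₁0 : 0 < ε₁ := by rw [hε₁]; exact lt_min hε one_pos
  have hε₁1 : ε₁ ≤ 1 := by rw [hε₁]; exact min_le_right _ _
  have hε₁ε : ε₁ ≤ ε := by rw [hε₁]; exact min_le_left _ _
  obtain ⟨c, D, hc, hD, hlaw⟩ := Pool.Agent.H828R3.Exc.law (ε := ε₁ / 10) (by positivity)
  obtain ⟨c', hc'⟩ : ∃ c' : ℝ, c' = min c 1 := ⟨_, rfl⟩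
  have hc'0 : 0 < c' := by rw [hc']; exact lt_min hc one_pos
  have hc'1 : c' ≤ 1 := by rw [hc']; exact min_le_right _ _
  have hc'c : c' ≤ c := by rw [hc']; exact min_le_left _ _
  have hcθ : c' * θ / 2 < 1 / 2 := by nlinarith
  have hcθ0 : 0 < c' * θ / 2 := by positivity
  obtain ⟨s, hs⟩ : ∃ s : ℝ, s = 1 - c' * θ / 2 := ⟨_, rfl⟩
  have hs2 : 1 / 2 < s := by rw [hs]; linarith
  refine ⟨s, by linarith, by rw [hs]; linarith, fun η hη => ?_⟩
  -- large `n`
  obtain ⟨n₀, hn₀⟩ : ∃ n₀ : ℕ, ∀ n : ℕ, n₀ ≤ n → 10 / ε₁ ≤ Real.log n ∧ 60 * Real.log n ≤ (n : ℝ) ^ θ := by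
    have h1 : ∀ᶠ n : ℕ in Filter.atTop, 10 / ε₁ ≤ Real.log (n : ℝ) :=
      (Real.tendsto_log_atTop.comp tendsto_natCast_atTop_atTop).eventually_ge_atTop _
    have h2 : ∀ᶠ n : ℕ in Filter.atTop, Real.log (n : ℝ) ≤ 1 / 60 * (n : ℝ) ^ θ := by
      have h3 := (isLittleO_log_rpow_atTop hθ).bound (show (0 : ℝ) < 1 / 60 by norm_num)
      have h4 := tendsto_natCast_atTop_atTop (R := ℝ) |>.eventually h3
      filter_upwards [h4] with n hn
      rw [Real.norm_eq_abs, Real.norm_eq_abs] at hn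
      have h5 := le_abs_self (Real.log (n : ℝ))
      have h6 : |(n : ℝ) ^ θ| = (n : ℝ) ^ θ := abs_of_nonneg (by positivity)
      rw [h6] at hn
      linarith
    obtain ⟨n₀, hn₀⟩ := Filter.eventually_atTop.1 (h1.and h2)
    refine ⟨n₀, fun n hn => ⟨(hn₀ n hn).1, ?_⟩⟩
    have := (hn₀ n hn).2
    linarith
  have hfin : ∀ X : ℝ, {m : ℕ | m ∈ Off ε θ ∧ (m : ℝ) ≤ X}.Finite := fun X =>
    (Set.finite_Iic ⌊X⌋₊).subset fun m hm => Nat.le_floor hm.2
  refine ⟨(n₀ + 2) + (2 + D * ((4 / η) ^ 4 * 2)), fun X hX => ⟨hfin X, ?_⟩⟩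
  have hX0 : 0 < X := by linarith
  have hXe : 1 ≤ X ^ (s + η) := Real.one_le_rpow hX (by linarith)
  have hKp : 0 ≤ 2 + D * ((4 / η) ^ 4 * 2) := by positivity
  rcases lt_or_ge X 2 with hX2 | hX2
  · have h2 : ({m : ℕ | m ∈ Off ε θ ∧ (m : ℝ) ≤ X}.ncard : ℝ) ≤ 2 := by
      have h3 : {m : ℕ | m ∈ Off ε θ ∧ (m : ℝ) ≤ X} ⊆ ((Icc 1 1 : Finset ℕ) : Set ℕ) := by
        rintro m ⟨hm, hmX⟩
        have h4 : 1 ≤ m := by
          have := hm.1
          omega
        have h5 : (m : ℝ) < 2 := lt_of_le_of_lt hmX hX2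
        have h6 : m < 2 := by exact_mod_cast h5
        exact mem_coe.2 (mem_Icc.2 ⟨h4, by omega⟩)
      have h4 := Set.ncard_le_ncard h3 (Finset.finite_toSet _)
      rw [Set.ncard_coe_finset, Nat.card_Icc] at h4
      have h5 : {m : ℕ | m ∈ Off ε θ ∧ (m : ℝ) ≤ X}.ncard ≤ 1 := by omega
      have h6 : ({m : ℕ | m ∈ Off ε θ ∧ (m : ℝ) ≤ X}.ncard : ℝ) ≤ 1 := by exact_mod_cast h5
      linarith
    have hn₀' : (0 : ℝ) ≤ n₀ := Nat.cast_nonneg _
    calc ({m : ℕ | m ∈ Off ε θ ∧ (m : ℝ) ≤ X}.ncard : ℝ) ≤ 2 := h2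
      _ ≤ ((n₀ + 2) + (2 + D * ((4 / η) ^ 4 * 2))) * 1 := by linarith
      _ ≤ _ := mul_le_mul_of_nonneg_left hXe (by linarith)
  · obtain ⟨y, hy⟩ : ∃ y : ℝ, y = X ^ (θ / 2) := ⟨_, rfl⟩
    have hy1 : 1 ≤ y := by rw [hy]; exact Real.one_le_rpow hX (by positivity)
    have h3 := hlaw X y (X ^ 2) hX2 hy1 (by nlinarith)
    -- the three parts
    have hsub : {m : ℕ | m ∈ Off ε θ ∧ (m : ℝ) ≤ X} ⊆
        ((range n₀ : Finset ℕ) : Set ℕ) ∪ (((Icc 1 ⌊X ^ (1 / 2 : ℝ)⌋₊ : Finset ℕ) : Set ℕ) ∪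
          {n : ℕ | 1 ≤ n ∧ (n : ℝ) ≤ X ∧ ¬ Pool.Agent.H828R3.Exc.Pr (ε₁ / 10) y (X ^ 2) n}) := by
      rintro m ⟨hm, hmX⟩
      have hm1 : 1 ≤ m := by
        have := hm.1
        omega
      by_contra hcon
      rw [Set.mem_union, Set.mem_union, not_or, not_or] at hcon
      obtain ⟨g1, g2, g3⟩ := hcon
      have g1' : n₀ ≤ m := by
        by_contra h
        exact g1 (mem_coe.2 (mem_range.2 (not_le.1 h)))
      have g2' : X ^ (1 / 2 : ℝ) < m := by
        by_contra h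
        exact g2 (mem_coe.2 (mem_Icc.2 ⟨hm1, Nat.le_floor (not_lt.1 h)⟩))
      have g3' : Pool.Agent.H828R3.Exc.Pr (ε₁ / 10) y (X ^ 2) m := by
        by_contra h
        exact g3 ⟨hm1, hmX, h⟩
      obtain ⟨g4, g5⟩ := hn₀ m g1'
      apply hm.2
      refine (onCourse_of hε₁0 hε₁1 hm.1 ?_ g4 g5 g3').mono hε₁ε
      rw [hy]
      calc X ^ (θ / 2) = (X ^ (1 / 2 : ℝ)) ^ θ := by
            rw [← Real.rpow_mul hX0.le]
            congr 1
            ring
        _ ≤ (m : ℝ) ^ θ := Real.rpow_le_rpow (by positivity) g2'.le hθ.le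
    have hfin3 : {n : ℕ | 1 ≤ n ∧ (n : ℝ) ≤ X ∧ ¬ Pool.Agent.H828R3.Exc.Pr (ε₁ / 10) y (X ^ 2) n}.Finite :=
      (Set.finite_Iic ⌊X⌋₊).subset fun m hm => Nat.le_floor hm.2.1
    have h4 : {m : ℕ | m ∈ Off ε θ ∧ (m : ℝ) ≤ X}.ncard ≤ n₀ + (⌊X ^ (1 / 2 : ℝ)⌋₊ +
        {n : ℕ | 1 ≤ n ∧ (n : ℝ) ≤ X ∧ ¬ Pool.Agent.H828R3.Exc.Pr (ε₁ / 10) y (X ^ 2) n}.ncard) := by
      refine (Set.ncard_le_ncard hsub ((Finset.finite_toSet _).union ((Finset.finite_toSet _).union hfin3))).trans ?_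
      refine (Set.ncard_union_le _ _).trans ?_
      rw [Set.ncard_coe_finset, card_range]
      refine Nat.add_le_add_left ((Set.ncard_union_le _ _).trans ?_) _
      rw [Set.ncard_coe_finset, Nat.card_Icc, Nat.add_sub_cancel]
    have h5 : ({m : ℕ | m ∈ Off ε θ ∧ (m : ℝ) ≤ X}.ncard : ℝ) ≤ n₀ + (X ^ (1 / 2 : ℝ) +
        D * (Real.log X) ^ 4 * (X / y ^ c + X ^ 2 / X ^ 2)) := by
      have h6 : ({m : ℕ | m ∈ Off ε θ ∧ (m : ℝ) ≤ X}.ncard : ℝ) ≤ n₀ + (⌊X ^ (1 / 2 : ℝ)⌋₊ +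
        ({n : ℕ | 1 ≤ n ∧ (n : ℝ) ≤ X ∧ ¬ Pool.Agent.H828R3.Exc.Pr (ε₁ / 10) y (X ^ 2) n}.ncard : ℝ)) := by
        exact_mod_cast h4
      have h7 : ((⌊X ^ (1 / 2 : ℝ)⌋₊ : ℕ) : ℝ) ≤ X ^ (1 / 2 : ℝ) := Nat.floor_le (by positivity)
      linarith
    have hlogX : 0 ≤ Real.log X := Real.log_nonneg hX
    have h6 : (Real.log X) ^ 4 ≤ (4 / η) ^ 4 * X ^ η := by
      have h7 := Real.log_le_rpow_div hX0.le (show 0 < η / 4 by positivity)
      have h8 : Real.log X ≤ (4 / η) * X ^ (η / 4) := by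
        calc Real.log X ≤ X ^ (η / 4) / (η / 4) := h7
          _ = _ := by field_simp
      calc (Real.log X) ^ 4 ≤ ((4 / η) * X ^ (η / 4)) ^ 4 := pow_le_pow_left₀ hlogX h8 4
        _ = (4 / η) ^ 4 * X ^ η := by
          rw [mul_pow, ← Real.rpow_natCast (X ^ (η / 4)), ← Real.rpow_mul hX0.le]
          congr 2
          push_cast
          ring
    have h7 : X / y ^ c + X ^ 2 / X ^ 2 ≤ 2 * X ^ s := by
      have g1 : X / y ^ c ≤ X ^ s := by
        have g2 : y ^ c' ≤ y ^ c := Real.rpow_le_rpow_of_exponent_le hy1 hc'c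
        have g3 : y ^ c' = X ^ (c' * θ / 2) := by
          rw [hy, ← Real.rpow_mul hX0.le]
          congr 1
          ring
        have hy0 : 0 < y := by linarith
        calc X / y ^ c ≤ X / y ^ c' := div_le_div_of_nonneg_left hX0.le (by positivity) g2
          _ = X ^ s := by
            rw [g3, hs, Real.rpow_sub hX0, Real.rpow_one]
      have g4 : X ^ 2 / X ^ 2 = 1 := div_self (by positivity)
      have g5 : (1 : ℝ) ≤ X ^ s := Real.one_le_rpow hX (by linarith)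
      rw [g4]
      linarith
    have h8 : D * (Real.log X) ^ 4 * (X / y ^ c + X ^ 2 / X ^ 2) ≤ D * ((4 / η) ^ 4 * 2) * X ^ (s + η) := by
      have g1 : X ^ (s + η) = X ^ s * X ^ η := Real.rpow_add hX0 _ _
      have g0 : 0 ≤ X / y ^ c + X ^ 2 / X ^ 2 := by
        have hy0 : 0 < y := by linarith
        positivity
      calc D * (Real.log X) ^ 4 * (X / y ^ c + X ^ 2 / X ^ 2) ≤ D * ((4 / η) ^ 4 * X ^ η) * (2 * X ^ s) := by
            apply mul_le_mul _ h7 g0 (by positivity)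
            exact mul_le_mul_of_nonneg_left h6 hD.le
        _ = _ := by rw [g1]; ring
    have h9 : X ^ (1 / 2 : ℝ) ≤ X ^ (s + η) := Real.rpow_le_rpow_of_exponent_le hX (by linarith)
    have hn₀' : (0 : ℝ) ≤ n₀ := Nat.cast_nonneg _
    have h10 : (n₀ : ℝ) ≤ n₀ * X ^ (s + η) := le_mul_of_one_le_right hn₀' hXe
    calc ({m : ℕ | m ∈ Off ε θ ∧ (m : ℝ) ≤ X}.ncard : ℝ)
        ≤ n₀ + (X ^ (1 / 2 : ℝ) + D * (Real.log X) ^ 4 * (X / y ^ c + X ^ 2 / X ^ 2)) := h5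
      _ ≤ n₀ * X ^ (s + η) + (X ^ (s + η) + D * ((4 / η) ^ 4 * 2) * X ^ (s + η)) := by linarith
      _ = (n₀ + 1 + D * ((4 / η) ^ 4 * 2)) * X ^ (s + η) := by ring
      _ ≤ _ := by
        apply mul_le_mul_of_nonneg_right _ (by positivity)
        linarith

end Pool.Agent.Zk38.Ht
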