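import Pool.Agent.Zk38.Ht.A
import Pool.Agent.Zk38.Ht.B

/-!
The two properties of the odd integers under the `3x+1` map which are transferred to thin sets, and their exponents.
-/

set_option autoImplicit false

namespace Pool.Agent.Zk38.Hts

/-- `C(m) = (3m+1)/2^e(m)`, `2^e(m)` the largest power of `2` dividing `3m+1` -/
def C (m : ℕ) : ℕ := (3 * m + 1) / 2 ^ padicValNat 2 (3 * m + 1)

/-- the height of `m` is larger than `β log m` (or infinite): `C^k(m) ≠ 1` for all `1 ≤ k ≤ β log m` -/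
def Tall (β : ℝ) (m : ℕ) : Prop := ∀ k : ℕ, 1 ≤ k → (k : ℝ) ≤ β * Real.log m → C^[k] m ≠ 1

/-- For all `ε ≤ t ≤ 1` the first term `C^k(m) ≤ m ^ t` of the trajectory exists, and its index `k` differs from
`(1 - t) (2 / log (16 / 9)) log m` by at most `ε log m`. -/
def OnCourse (ε : ℝ) (m : ℕ) : Prop :=
  ∀ t : ℝ, ε ≤ t → t ≤ 1 → ∃ k : ℕ, ((C^[k] m : ℕ) : ℝ) ≤ (m : ℝ) ^ t ∧ (∀ i < k, (m : ℝ) ^ t < (C^[i] m : ℕ)) ∧
    |(k : ℝ) - (1 - t) * (2 / Real.log (16 / 9)) * Real.log m| ≤ ε * Real.log m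

/-- `S(β) = (1 + β log 3) / log 2` -/
noncomputable def S (β : ℝ) : ℝ := (1 + β * Real.log 3) / Real.log 2

/-- `e(β) = S(β) H(β / S(β)) - β log 3`, where `H` is the binary entropy function -/
noncomputable def e (β : ℝ) : ℝ := S β * Real.binEntropy (β / S β) - β * Real.log 3

/-- The properties `P` of odd integers `m` in question, and the exponents `s` of their exceptional sets. Case 1: the height
of `m` is larger than `β log m`, where `0 < β < 2 / log (16 / 9)`; here `s = e(β)`. Case 2: `OnCourse ε m`, where `ε > 0`;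
here `s = 1 - σ(ε)`. -/
def Case (σ : ℝ → ℝ) (s : ℝ) (P : ℕ → Prop) : Prop :=
  (∃ β : ℝ, 0 < β ∧ β < 2 / Real.log (16 / 9) ∧ s = e β ∧ ∀ m, P m ↔ Tall β m) ∨
    ∃ ε : ℝ, 0 < ε ∧ s = 1 - σ ε ∧ ∀ m, P m ↔ OnCourse ε m

lemma e_eq : e = Pool.Agent.Y966.LD.ee := rfl

lemma two_div : 2 / Real.log (16 / 9) = 1 / Real.log (4 / 3) := Pool.Agent.Zk38.Ht.two_div

lemma e_pos {β : ℝ} (h0 : 0 < β) (h1 : β < 2 / Real.log (16 / 9)) : 0 < e β ∧ e β < 1 := by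
  have hl2 : 0 < Real.log 2 := Real.log_pos (by norm_num)
  have hl3 : 0 < Real.log 3 := Real.log_pos (by norm_num)
  have h43 : 0 < Real.log (4 / 3) := Real.log_pos (by norm_num)
  rw [two_div] at h1
  obtain ⟨g1, g2⟩ := Pool.Agent.N685.FT.SS_rho_half h0 h1.le
  have hS := Pool.Agent.Y966.LD.SS_pos h0.le
  have h3 : e β = Pool.Agent.Y966.LD.SS β *
      Pool.Agent.H395R2.G3.FF (β / Pool.Agent.Y966.LD.SS β) :=
    Pool.Agent.Y966.LD.ee_eq h0.le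
  constructor
  · rw [h3]
    exact mul_pos hS (Pool.Agent.H395R2.G3.FF_pos_of g1
      (lt_of_le_of_lt g2 Pool.Agent.N685.FT.half_lt) (by norm_num) Pool.Agent.H395R2.G3.FF_low.le)
  · have g3 : β / Pool.Agent.Y966.LD.SS β < 1 / 2 := by
      rw [div_lt_iff₀ hS]
      rw [lt_div_iff₀ h43, Pool.Agent.N685.FT.log43] at h1
      unfold Pool.Agent.Y966.LD.SS
      have : 1 / 2 * ((1 + β * Real.log 3) / Real.log 2) =
          (1 + β * Real.log 3) / (2 * Real.log 2) := by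
        field_simp
      rw [this, lt_div_iff₀ (by positivity)]
      linarith
    have g4 : Real.binEntropy (β / Pool.Agent.Y966.LD.SS β) < Real.log 2 :=
      Real.binEntropy_lt_log_two.2 (by
        intro h
        rw [h] at g3
        norm_num at g3)
    have g5 : e β = Pool.Agent.Y966.LD.SS β *
        Real.binEntropy (β / Pool.Agent.Y966.LD.SS β) - β * Real.log 3 := rfl
    rw [g5]
    have g6 : Pool.Agent.Y966.LD.SS β * Real.log 2 = 1 + β * Real.log 3 := by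
      unfold Pool.Agent.Y966.LD.SS
      field_simp
    have g7 := mul_lt_mul_of_pos_left g4 hS
    linarith

lemma Tall.mono {β β' : ℝ} {m : ℕ} (h : Tall β' m) (hβ : β ≤ β') : Tall β m := by
  intro k h1 h2
  exact h k h1 (h2.trans (mul_le_mul_of_nonneg_right hβ (Real.log_natCast_nonneg _)))

lemma onCourse_of {ε ε' : ℝ} {m : ℕ} (h : Pool.Agent.Zk38.Ht.OnCourse ε' ε' m) (hε : ε' ≤ ε) : OnCourse ε m := by
  intro t ht ht1
  obtain ⟨k, h1, h2, h3⟩ := h t (hε.trans ht) ht1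
  exact ⟨k, h1, h2, h3.trans (mul_le_mul_of_nonneg_right hε (Real.log_natCast_nonneg _))⟩

lemma OnCourse.mono {ε ε' : ℝ} {m : ℕ} (h : OnCourse ε' m) (hε : ε' ≤ ε) : OnCourse ε m := by
  intro t ht ht1
  obtain ⟨k, h1, h2, h3⟩ := h t (hε.trans ht) ht1
  exact ⟨k, h1, h2, h3.trans (mul_le_mul_of_nonneg_right hε (Real.log_natCast_nonneg _))⟩

/-- the odd integers without the property `P` -/
def Bad (P : ℕ → Prop) : Set ℕ := {m : ℕ | m % 2 = 1 ∧ ¬ P m}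

/-- `W` has `O (X ^ (s + η))` elements up to `X`, for all `η > 0` -/
def Power (s : ℝ) (W : Set ℕ) : Prop := ∀ η : ℝ, 0 < η → ∃ K : ℝ, ∀ X : ℝ, 1 ≤ X →
  {m : ℕ | m ∈ W ∧ (m : ℝ) ≤ X}.Finite ∧ ({m : ℕ | m ∈ W ∧ (m : ℝ) ≤ X}.ncard : ℝ) ≤ K * X ^ (s + η)

/-- the exceptional sets have power savings; the parameters `ε` are reduced to countably many -/
theorem exists_sigma : ∃ (σ : ℝ → ℝ) (N : ℝ → ℕ) (s : ℕ → ℝ), (∀ ε : ℝ, 0 < ε → 0 < σ ε ∧ σ ε < 1) ∧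
    (∀ ε : ℝ, 0 < ε → 1 / ((N ε : ℝ) + 2) ≤ ε ∧ s (N ε) = 1 - 2 * σ ε) ∧
    (∀ n : ℕ, 0 < s n ∧ s n < 1 ∧ Power (s n) (Bad (OnCourse (1 / ((n : ℝ) + 2))))) := by
  classical
  have h := fun n : ℕ => Pool.Agent.Zk38.Ht.count_off (ε := 1 / ((n : ℝ) + 2)) (θ := 1 / ((n : ℝ) + 2))
    (by positivity) (by positivity) (by
      rw [div_lt_one (by positivity)]
      have : (0 : ℝ) ≤ n := Nat.cast_nonneg n
      linarith)
  choose s hs0 hs1 hs using h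
  refine ⟨fun ε => (1 - s ⌈1 / ε⌉₊) / 2, fun ε => ⌈1 / ε⌉₊, s, fun ε hε => ⟨?_, ?_⟩, fun ε hε => ⟨?_, ?_⟩,
    fun n => ⟨hs0 n, hs1 n, ?_⟩⟩
  · have := hs1 ⌈1 / ε⌉₊
    show 0 < (1 - s ⌈1 / ε⌉₊) / 2
    linarith
  · have := hs0 ⌈1 / ε⌉₊
    show (1 - s ⌈1 / ε⌉₊) / 2 < 1
    linarith
  · have h1 : (1 : ℝ) / ε ≤ (⌈1 / ε⌉₊ : ℝ) := Nat.le_ceil _
    rw [div_le_iff₀ (by positivity)]
    rw [div_le_iff₀ hε] at h1
    nlinarith
  · show s ⌈1 / ε⌉₊ = 1 - 2 * ((1 - s ⌈1 / ε⌉₊) / 2)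
    ring
  · intro η hη
    obtain ⟨K, hK⟩ := hs n η hη
    refine ⟨K, fun X hX => ?_⟩
    obtain ⟨g1, g2⟩ := hK X hX
    have hsub : {m : ℕ | m ∈ Bad (OnCourse (1 / ((n : ℝ) + 2))) ∧ (m : ℝ) ≤ X} ⊆
        {m : ℕ | m ∈ Pool.Agent.Zk38.Ht.Off (1 / ((n : ℝ) + 2)) (1 / ((n : ℝ) + 2)) ∧ (m : ℝ) ≤ X} := by
      rintro m ⟨⟨h1, h2⟩, h3⟩
      exact ⟨⟨h1, fun h4 => h2 (onCourse_of h4 le_rfl)⟩, h3⟩
    exact ⟨g1.subset hsub, le_trans (by exact_mod_cast Set.ncard_le_ncard hsub g1) g2⟩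

theorem count_tall {β : ℝ} (h0 : 0 < β) (h1 : β < 2 / Real.log (16 / 9)) : Power (e β) (Bad (Tall β)) :=
  fun η hη => Pool.Agent.Zk38.Ht.count h0 h1.le η hη

lemma Power.mono {s : ℝ} {W W' : Set ℕ} (h : Power s W) (hW : W' ⊆ W) : Power s W' := by
  intro η hη
  obtain ⟨K, hK⟩ := h η hη
  refine ⟨K, fun X hX => ?_⟩
  obtain ⟨g1, g2⟩ := hK X hX
  have hsub : {m : ℕ | m ∈ W' ∧ (m : ℝ) ≤ X} ⊆ {m : ℕ | m ∈ W ∧ (m : ℝ) ≤ X} := fun m hm => ⟨hW hm.1, hm.2⟩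
  exact ⟨g1.subset hsub, le_trans (by exact_mod_cast Set.ncard_le_ncard hsub g1) g2⟩

/-- the exponent in `Case` -/
theorem Case.power {σ : ℝ → ℝ} {N : ℝ → ℕ} {s : ℕ → ℝ} (hσ : ∀ ε : ℝ, 0 < ε → 0 < σ ε ∧ σ ε < 1)
    (hN : ∀ ε : ℝ, 0 < ε → 1 / ((N ε : ℝ) + 2) ≤ ε ∧ s (N ε) = 1 - 2 * σ ε)
    (hs : ∀ n : ℕ, 0 < s n ∧ s n < 1 ∧ Power (s n) (Bad (OnCourse (1 / ((n : ℝ) + 2)))))
    {t : ℝ} {P : ℕ → Prop} (h : Case σ t P) : ∃ t', 0 ≤ t' ∧ t' ≤ t ∧ t < 1 ∧ Power t' (Bad P) := by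
  rcases h with ⟨β, h0, h1, h2, h3⟩ | ⟨ε, hε, h2, h3⟩
  · obtain ⟨g1, g2⟩ := e_pos h0 h1
    refine ⟨e β, g1.le, h2.ge, by rw [h2]; exact g2, (count_tall h0 h1).mono ?_⟩
    rintro m ⟨h4, h5⟩
    exact ⟨h4, fun h6 => h5 ((h3 m).2 h6)⟩
  · obtain ⟨g1, g2⟩ := hN ε hε
    obtain ⟨g3, g4, g5⟩ := hs (N ε)
    obtain ⟨g6, g7⟩ := hσ ε hε
    refine ⟨s (N ε), g3.le, by rw [g2, h2]; linarith, by rw [h2]; linarith, g5.mono ?_⟩
    rintro m ⟨h4, h5⟩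
    exact ⟨h4, fun h6 => h5 ((h3 m).2 (h6.mono g1))⟩

end Pool.Agent.Zk38.Hts
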