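import Pool.Agent.N685.FT.Gen2
import Pool.Agent.N685.FT.Ht

/-!
The number of the odd integers `m ≤ x` of height at most `β log m`.
-/

set_option autoImplicit false

namespace Pool.Agent.Zk38.Ht

open Finset Pool.Agent.Y966.LD Pool.Agent.N685.FT

/-- `C(m) = (3m+1)/2^e(m)`, `2^e(m)` the largest power of `2` dividing `3m+1` -/
def C (m : ℕ) : ℕ := (3 * m + 1) / 2 ^ padicValNat 2 (3 * m + 1)

/-- the height of `m` is larger than `β log m` (or infinite): `C^k(m) ≠ 1` for all `1 ≤ k ≤ β log m` -/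
def Tall (β : ℝ) (m : ℕ) : Prop := ∀ k : ℕ, 1 ≤ k → (k : ℝ) ≤ β * Real.log m → C^[k] m ≠ 1

/-- the odd integers of height at most `β log m` -/
def Low (β : ℝ) : Set ℕ := {m : ℕ | m % 2 = 1 ∧ ¬ Tall β m}

lemma uu_mono {z β β' : ℝ} (h0 : 1 / 2 < z) (h1 : z < 1) (h : β ≤ β') : uu β z ≤ uu β' z := by
  obtain ⟨-, hab⟩ := tilt_facts h0 h1
  have hl2 : 0 < Real.log 2 := Real.log_pos (by norm_num)
  have e : uu β' z - uu β z = (β' - β) * ((-Real.log z * Real.log 3 + -Real.log (3 * (1 - z) / z) * Real.log 2) /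
      Real.log 2) := by
    unfold uu SS
    field_simp
    ring
  have h2 : 0 ≤ (β' - β) * ((-Real.log z * Real.log 3 + -Real.log (3 * (1 - z) / z) * Real.log 2) / Real.log 2) :=
    mul_nonneg (by linarith) (div_nonneg hab.le hl2.le)
  linarith

theorem count {β : ℝ} (h0 : 0 < β) (h1 : β ≤ 2 / Real.log (16 / 9)) (ε : ℝ) (hε : 0 < ε) :
    ∃ K : ℝ, ∀ X : ℝ, 1 ≤ X → {m : ℕ | m ∈ Low β ∧ (m : ℝ) ≤ X}.Finite ∧
      ({m : ℕ | m ∈ Low β ∧ (m : ℝ) ≤ X}.ncard : ℝ) ≤ K * X ^ (ee β + ε) := by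
  classical
  have h43 : 0 < Real.log (4 / 3) := Real.log_pos (by norm_num)
  have e169 : Real.log (16 / 9) = 2 * Real.log (4 / 3) := by
    rw [show (16 / 9 : ℝ) = (4 / 3) ^ 2 by norm_num, Real.log_pow]
    norm_num
  have hB : 2 / Real.log (16 / 9) = 1 / Real.log (4 / 3) := by
    rw [e169]
    field_simp
  rw [hB] at h1
  have h43' : 1 / 4 ≤ Real.log (4 / 3) := by
    have e := log43
    have l2a := Real.log_two_gt_d9
    have l3b := Real.log_three_lt_d9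
    norm_num at l2a l3b
    rw [e]
    linarith
  have hβ4 : β ≤ 4 := by
    refine h1.trans ?_
    rw [div_le_iff₀ h43]
    linarith
  obtain ⟨z, hz0, hz1, hz2⟩ := exists_tilt h0.le h1 (show 0 < ε / 3 by positivity)
  obtain ⟨X₀, hX₀, hup⟩ := ht_upper_core gen_main hz0 hz1 (show 0 < ε / 3 by positivity)
  obtain ⟨g1, g2⟩ := SS_rho_half h0 h1
  have hee : 0 < ee β := by
    rw [ee_eq h0.le]
    exact mul_pos (SS_pos h0.le) (Pool.Agent.H395R2.G3.FF_pos_of g1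
      (lt_of_le_of_lt g2 half_lt) (by norm_num) Pool.Agent.H395R2.G3.FF_low.le)
  -- the finiteness
  have hfin : ∀ X : ℝ, {m : ℕ | m ∈ Low β ∧ (m : ℝ) ≤ X}.Finite := fun X =>
    (Set.finite_Iic ⌊X⌋₊).subset fun m hm => Nat.le_floor hm.2
  -- `log X ≤ (3 / ε) X ^ (ε / 3)`
  refine ⟨X₀ + (4 * (3 / ε) + 1), fun X hX => ⟨hfin X, ?_⟩⟩
  have hX0 : 0 < X := by linarith
  have hXe : 1 ≤ X ^ (ee β + ε) := Real.one_le_rpow hX (by positivity)
  rcases lt_or_ge X X₀ with hXX | hXX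
  · -- small `X`
    have h2 : ({m : ℕ | m ∈ Low β ∧ (m : ℝ) ≤ X}.ncard : ℝ) ≤ X := by
      have h3 : {m : ℕ | m ∈ Low β ∧ (m : ℝ) ≤ X} ⊆ ((Icc 1 ⌊X⌋₊ : Finset ℕ) : Set ℕ) := by
        rintro m ⟨hm, hmX⟩
        have : 1 ≤ m := by
          have := hm.1
          omega
        exact mem_coe.2 (mem_Icc.2 ⟨this, Nat.le_floor hmX⟩)
      have h4 := Set.ncard_le_ncard h3 (Finset.finite_toSet _)
      rw [Set.ncard_coe_finset, Nat.card_Icc] at h4
      have h5 : {m : ℕ | m ∈ Low β ∧ (m : ℝ) ≤ X}.ncard ≤ ⌊X⌋₊ := by omega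
      calc ({m : ℕ | m ∈ Low β ∧ (m : ℝ) ≤ X}.ncard : ℝ) ≤ ((⌊X⌋₊ : ℕ) : ℝ) := by exact_mod_cast h5
        _ ≤ X := Nat.floor_le hX0.le
    have h6 : 0 ≤ 4 * (3 / ε) + 1 := by positivity
    calc ({m : ℕ | m ∈ Low β ∧ (m : ℝ) ≤ X}.ncard : ℝ) ≤ X := h2
      _ ≤ X₀ + (4 * (3 / ε) + 1) := by linarith
      _ ≤ (X₀ + (4 * (3 / ε) + 1)) * X ^ (ee β + ε) := le_mul_of_one_le_right (by linarith) hXe
  · -- large `X`
    set L := Real.log X with hL
    have hL0 : 0 < L := Real.log_pos (by linarith)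
    have hsub : {m : ℕ | m ∈ Low β ∧ (m : ℝ) ≤ X} ⊆ ⋃ k ∈ (Icc 1 ⌊β * L⌋₊ : Finset ℕ), HS X k := by
      rintro m ⟨⟨hm1, hm2⟩, hmX⟩
      unfold Tall at hm2
      push Not at hm2
      obtain ⟨k, hk1, hk2, hk3⟩ := hm2
      have hm0 : 1 ≤ m := by omega
      have hex : ∃ k : ℕ, 1 ≤ k ∧ Cm^[k] m = 1 := ⟨k, hk1, hk3⟩
      obtain ⟨g1, g2⟩ := Nat.find_spec hex
      have g3 := Nat.find_min' hex ⟨hk1, hk3⟩
      refine Set.mem_biUnion (x := Nat.find hex) ?_ ⟨hm1, hmX, ⟨g1, g2⟩, fun j hj => Nat.find_min' hex hj⟩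
      refine mem_coe.2 (mem_Icc.2 ⟨g1, Nat.le_floor ?_⟩)
      have h3 : Real.log m ≤ L := Real.log_le_log (by exact_mod_cast hm0) hmX
      calc ((Nat.find hex : ℕ) : ℝ) ≤ k := by exact_mod_cast g3
        _ ≤ β * Real.log m := hk2
        _ ≤ β * L := mul_le_mul_of_nonneg_left h3 h0.le
    have hterm : ∀ k ∈ (Icc 1 ⌊β * L⌋₊ : Finset ℕ), ((HS X k).ncard : ℝ) ≤ X ^ (ee β + 2 * ε / 3) := by
      intro k hk
      have hk2 : (k : ℝ) ≤ β * L := (Nat.le_floor_iff (by positivity)).1 (mem_Icc.1 hk).2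
      have h3 := hup X hXX k (hk2.trans (mul_le_mul_of_nonneg_right hβ4 hL0.le))
      refine h3.trans ?_
      rw [Real.rpow_def_of_pos hX0]
      apply Real.exp_le_exp.2
      apply mul_le_mul_of_nonneg_left _ hL0.le
      have h4 : uu ((k : ℝ) / L) z ≤ uu β z := uu_mono hz0 hz1 (by
        rw [div_le_iff₀ hL0]
        exact hk2)
      linarith
    have hcard : ({m : ℕ | m ∈ Low β ∧ (m : ℝ) ≤ X}.ncard : ℝ) ≤
        ∑ k ∈ (Icc 1 ⌊β * L⌋₊ : Finset ℕ), ((HS X k).ncard : ℝ) := by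
      have hf2 : (⋃ k ∈ (Icc 1 ⌊β * L⌋₊ : Finset ℕ), HS X k).Finite :=
        Set.Finite.biUnion (Finset.finite_toSet _) fun k _ => HS_finite X k
      have h3 := Set.ncard_le_ncard hsub hf2
      have h4 : (⋃ k ∈ (Icc 1 ⌊β * L⌋₊ : Finset ℕ), HS X k).ncard ≤
          ∑ k ∈ (Icc 1 ⌊β * L⌋₊ : Finset ℕ), (HS X k).ncard :=
        Finset.set_ncard_biUnion_le _ _
      exact_mod_cast h3.trans h4
    have hsum : ∑ k ∈ (Icc 1 ⌊β * L⌋₊ : Finset ℕ), ((HS X k).ncard : ℝ) ≤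
        (β * L) * X ^ (ee β + 2 * ε / 3) := by
      refine (sum_le_sum hterm).trans ?_
      rw [sum_const, nsmul_eq_mul, Nat.card_Icc, Nat.add_sub_cancel]
      exact mul_le_mul_of_nonneg_right (Nat.floor_le (by positivity)) (by positivity)
    have hlog : L ≤ (3 / ε) * X ^ (ε / 3) := by
      have h3 := Real.log_le_rpow_div hX0.le (show 0 < ε / 3 by positivity)
      calc L ≤ X ^ (ε / 3) / (ε / 3) := h3
        _ = (3 / ε) * X ^ (ε / 3) := by field_simp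
    calc ({m : ℕ | m ∈ Low β ∧ (m : ℝ) ≤ X}.ncard : ℝ) ≤ (β * L) * X ^ (ee β + 2 * ε / 3) := hcard.trans hsum
      _ ≤ (4 * ((3 / ε) * X ^ (ε / 3))) * X ^ (ee β + 2 * ε / 3) := by
          apply mul_le_mul_of_nonneg_right _ (by positivity)
          exact mul_le_mul hβ4 hlog hL0.le (by norm_num)
      _ = (4 * (3 / ε)) * X ^ (ee β + ε) := by
          have : X ^ (ee β + ε) = X ^ (ε / 3) * X ^ (ee β + 2 * ε / 3) := by
            rw [← Real.rpow_add hX0]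
            congr 1
            ring
          rw [this]
          ring
      _ ≤ _ := by
          apply mul_le_mul_of_nonneg_right _ (by positivity)
          linarith

end Pool.Agent.Zk38.Ht
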